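import Pool.Agent.W5h80.Bil.D

set_option autoImplicit false

/-! Additive energies of multilinear families: the inequality for the exponential sums. -/

namespace Pool.Agent.W5h1.MLin
open Finset
open Pool.Agent.W5h80.Bil (e e_add e_sub e_zero norm_e e_sum moment pow_mean Del)

/-- `f` does not depend on the variable number `i` -/
def Free {k : ℕ} {ι : Fin k → Type} (i : Fin k) (f : (∀ i, ι i) → ℤ) : Prop :=
  ∀ x y : ∀ i, ι i, (∀ j, j ≠ i → x j = y j) → f x = f y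

/-- pairs of `h`-tuples -/
abbrev Pr (h : ℕ) (ι : Type) : Type := (Fin h → ι) × (Fin h → ι)

section
variable {M : ℕ} [NeZero M]

/-- the sum which arises by Hölder's inequality -/
noncomputable def BB (t : ZMod M) (κ : ℤ) (h d : ℕ) : (k : ℕ) → (ι : Fin (k + 1) → Type) → [∀ i, Fintype (ι i)] →
    (∀ i, ι i → Fin d → ℤ) → (Fin d → ℤ) → ℝ
  | 0, ι, _, a, w => ‖∑ x : ι 0, e t (κ * ∑ c, w c * a 0 x c)‖ ^ (2 * h)
  | k + 1, ι, _, a, w => ∑ q : Pr h (ι 0), BB t κ h d k (fun i => ι i.succ) (fun i => a i.succ)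
      (fun c => w c * Del (a 0) q c)

lemma BB_nonneg (t : ZMod M) (κ : ℤ) (h d : ℕ) (k : ℕ) : ∀ (ι : Fin (k + 1) → Type) [∀ i, Fintype (ι i)]
    (a : ∀ i, ι i → Fin d → ℤ) (w : Fin d → ℤ), 0 ≤ BB t κ h d k ι a w := by
  induction k with
  | zero =>
    intro ι _ a w
    unfold BB
    positivity
  | succ k ih =>
    intro ι _ a w
    unfold BB
    exact sum_nonneg fun q _ => ih _ _ _

lemma Del_apply {h d : ℕ} {ι : Type} (x : ι → Fin d → ℤ) (q : Pr h ι) (c : Fin d) :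
    Del x q c = ∑ j, x (q.1 j) c - ∑ j, x (q.2 j) c := by
  unfold Del
  rw [Pi.sub_apply, Finset.sum_apply, Finset.sum_apply]

/-- the phase of a difference -/
lemma phase {h d : ℕ} {ι : Type} (κ : ℤ) (w p : Fin d → ℤ) (x : ι → Fin d → ℤ) (q : Pr h ι) :
    ∑ j, (κ * ∑ c, w c * (x (q.1 j) c * p c)) - ∑ j, (κ * ∑ c, w c * (x (q.2 j) c * p c)) =
      κ * ∑ c, (w c * Del x q c) * p c := by
  have h1 : ∀ y : Fin h → ι, ∑ j, (κ * ∑ c, w c * (x (y j) c * p c)) = κ * ∑ c, w c * (∑ j, x (y j) c) * p c := by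
    intro y
    rw [← mul_sum]
    congr 1
    rw [sum_comm]
    refine sum_congr rfl fun c _ => ?_
    rw [mul_sum, sum_mul]
    refine sum_congr rfl fun j _ => ?_
    ring
  rw [h1, h1, ← mul_sub, ← sum_sub_distrib]
  congr 1
  refine sum_congr rfl fun c _ => ?_
  rw [Del_apply]
  ring

lemma BB_eq (t : ZMod M) (κ : ℤ) (h d : ℕ) (k : ℕ) : ∀ (ι : Fin (k + 1) → Type) [∀ i, Fintype (ι i)]
    (a : ∀ i, ι i → Fin d → ℤ) (w : Fin d → ℤ),
    ((BB t κ h d k ι a w : ℝ) : ℂ) = ∑ Q : ∀ i, Pr h (ι i), e t (κ * ∑ c, w c * ∏ i, Del (a i) (Q i) c) := by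
  classical
  induction k with
  | zero =>
    intro ι _ a w
    unfold BB
    rw [moment]
    refine Fintype.sum_equiv (Equiv.piUnique (fun i : Fin 1 => Pr h (ι i))).symm _ _ ?_
    intro q
    congr 1
    have h1 := phase κ w (fun _ => 1) (a 0) q
    simp only [mul_one] at h1
    rw [h1]
    congr 1
    refine sum_congr rfl fun c _ => ?_
    rw [Fin.prod_univ_one]
    rfl
  | succ k ih =>
    intro ι _ a w
    unfold BB
    rw [Complex.ofReal_sum]
    have h1 : ∀ q : Pr h (ι 0), ((BB t κ h d k (fun i => ι i.succ) (fun i => a i.succ)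
        (fun c => w c * Del (a 0) q c) : ℝ) : ℂ) =
        ∑ Q : ∀ i : Fin (k + 1), Pr h (ι i.succ), e t (κ * ∑ c, (w c * Del (a 0) q c) * ∏ i, Del (a i.succ) (Q i) c) :=
      fun q => ih _ _ _
    rw [sum_congr rfl fun q _ => h1 q]
    rw [← Fintype.sum_prod_type']
    refine Fintype.sum_equiv (Fin.consEquiv (fun i => Pr h (ι i))) _ _ ?_
    rintro ⟨q, Q⟩
    congr 2
    refine sum_congr rfl fun c _ => ?_
    have h2 := Fin.prod_univ_succ (fun i : Fin (k + 1 + 1) => Del (a i) ((Fin.consEquiv (fun i => Pr h (ι i))) (q, Q) i) c)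
    rw [h2, mul_assoc]
    rfl

lemma exps (A P : ℕ) (hP : 1 ≤ P) (hA : P ≤ A) :
    (P - 1) * A + (A - P) = P * A - P ∧ P * (A - 1) = P * A - P := by
  obtain ⟨p, rfl⟩ : ∃ p, P = p + 1 := ⟨P - 1, by omega⟩
  obtain ⟨r, rfl⟩ : ∃ r, A = p + 1 + r := ⟨A - (p + 1), by omega⟩
  constructor
  · have h1 : (p + 1) * (p + 1 + r) = p * (p + 1 + r) + r + (p + 1) := by ring
    rw [h1, Nat.add_sub_cancel, Nat.add_sub_cancel, Nat.add_sub_cancel_left]
  · have h1 : (p + 1) * (p + 1 + r) = (p + 1) * (p + r) + (p + 1) := by ring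
    have h2 : p + 1 + r - 1 = p + r := by omega
    rw [h1, Nat.add_sub_cancel, h2]

set_option maxHeartbeats 4000000 in
/-- the main inequality -/
theorem main_ineq (t : ZMod M) (κ : ℤ) (h d : ℕ) (hh : 1 ≤ h) (k : ℕ) : ∀ (ι : Fin (k + 1) → Type) [∀ i, Fintype (ι i)]
    (a : ∀ i, ι i → Fin d → ℤ) (w : Fin d → ℤ) (f : Fin (k + 1) → (∀ i, ι i) → ℤ), (∀ i, Free i (f i)) →
    ‖∑ x : ∀ i, ι i, e t (κ * ∑ c, w c * ∏ i, a i (x i) c + ∑ i, f i x)‖ ^ ((2 * h) ^ (k + 1)) ≤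
      (∏ i, (Fintype.card (ι i) : ℝ)) ^ ((2 * h) ^ (k + 1) - 2 * h) * BB t κ h d k ι a w := by
  classical
  induction k with
  | zero =>
    intro ι _ a w f hf
    have hc : ∃ c0 : ℤ, ∀ x, f 0 x = c0 := by
      by_cases hn : Nonempty (∀ i, ι i)
      · obtain ⟨x0⟩ := hn
        refine ⟨f 0 x0, fun x => hf 0 x x0 ?_⟩
        intro j hj
        exact absurd (Fin.ext (by have := j.2; show (j : ℕ) = 0; omega)) hj
      · exact ⟨0, fun x => absurd ⟨x⟩ hn⟩
    obtain ⟨c0, hc0⟩ := hc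
    have h1 : ‖∑ x : ∀ i, ι i, e t (κ * ∑ c, w c * ∏ i, a i (x i) c + ∑ i, f i x)‖ =
        ‖∑ x : ι 0, e t (κ * ∑ c, w c * a 0 x c)‖ := by
      have h2 : ∑ x : ∀ i, ι i, e t (κ * ∑ c, w c * ∏ i, a i (x i) c + ∑ i, f i x) =
          (∑ x : ι 0, e t (κ * ∑ c, w c * a 0 x c)) * e t c0 := by
        rw [sum_mul]
        refine Fintype.sum_equiv (@Equiv.piUnique (Fin 1) _ ι) _ _ ?_
        intro x
        rw [← e_add]
        congr 1
        have h3 : ∑ i, f i x = f 0 x := Fin.sum_univ_one (fun i : Fin 1 => f i x)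
        rw [h3, hc0]
        congr 2
        refine sum_congr rfl fun c _ => ?_
        have h4 : ∏ i, a i (x i) c = a 0 (x 0) c := Fin.prod_univ_one (fun i : Fin 1 => a i (x i) c)
        rw [h4]
        rfl
      rw [h2, norm_mul, norm_e, mul_one]
    rw [h1]
    unfold BB
    simp
  | succ k ih =>
    intro ι _ a w f hf
    obtain ⟨P, hP⟩ : ∃ P, P = 2 * h := ⟨_, rfl⟩
    have hP1 : 1 ≤ P := by omega
    obtain ⟨A, hA⟩ : ∃ A, A = P ^ (k + 1) := ⟨_, rfl⟩
    have hPA : P ≤ A := by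
      rw [hA]
      exact Nat.le_self_pow (by omega) P
    have hA1 : 1 ≤ A := by omega
    have hexp : (2 * h) ^ (k + 1 + 1) = P * A := by rw [hA, ← hP, pow_succ, mul_comm]
    obtain ⟨I0, hI0⟩ : ∃ I0 : ℝ, I0 = Fintype.card (ι 0) := ⟨_, rfl⟩
    obtain ⟨I1, hI1⟩ : ∃ I1 : ℝ, I1 = ∏ i : Fin (k + 1), (Fintype.card (ι i.succ) : ℝ) := ⟨_, rfl⟩
    have hI00 : 0 ≤ I0 := by rw [hI0]; positivity
    have hI10 : 0 ≤ I1 := by rw [hI1]; positivity
    have hprod : ∏ i, (Fintype.card (ι i) : ℝ) = I0 * I1 := by rw [Fin.prod_univ_succ, hI0, hI1]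
    rw [hexp, hprod, ← hP]
    -- the functions
    have hf0 : ∃ f0 : (∀ i : Fin (k + 1), ι i.succ) → ℤ, ∀ (x0 : ι 0) (x' : ∀ i : Fin (k + 1), ι i.succ),
        f 0 (Fin.cons x0 x') = f0 x' := by
      by_cases hn : Nonempty (ι 0)
      · obtain ⟨x00⟩ := hn
        refine ⟨fun x' => f 0 (Fin.cons x00 x'), fun x0 x' => hf 0 _ _ ?_⟩
        intro j hj
        obtain ⟨j', rfl⟩ := Fin.exists_succ_eq.2 hj
        rw [Fin.cons_succ, Fin.cons_succ]
      · exact ⟨fun _ => 0, fun x0 _ => absurd ⟨x0⟩ hn⟩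
    obtain ⟨f0, hf0⟩ := hf0
    obtain ⟨u, hu⟩ : ∃ u : (∀ i : Fin (k + 1), ι i.succ) → ι 0 → ℤ, u = fun x' x0 =>
      κ * ∑ c, w c * (a 0 x0 c * ∏ i : Fin (k + 1), a i.succ (x' i) c) +
        ∑ i : Fin (k + 1), f i.succ (Fin.cons x0 x') := ⟨_, rfl⟩
    obtain ⟨T, hT⟩ : ∃ T : (∀ i : Fin (k + 1), ι i.succ) → ℂ, T = fun x' => ∑ x0, e t (u x' x0) := ⟨_, rfl⟩
    have s1 : ‖∑ x : ∀ i, ι i, e t (κ * ∑ c, w c * ∏ i, a i (x i) c + ∑ i, f i x)‖ ≤ ∑ x', ‖T x'‖ := by
      have h1 : ∑ x : ∀ i, ι i, e t (κ * ∑ c, w c * ∏ i, a i (x i) c + ∑ i, f i x) =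
          ∑ x' : ∀ i : Fin (k + 1), ι i.succ, e t (f0 x') * T x' := by
        rw [← Fintype.sum_equiv (Fin.consEquiv ι) (fun p : ι 0 × (∀ i : Fin (k + 1), ι i.succ) =>
          e t (f0 p.2) * e t (u p.2 p.1)) _ ?_, Fintype.sum_prod_type_right]
        · refine sum_congr rfl fun x' _ => ?_
          rw [hT, mul_sum]
        · rintro ⟨x0, x'⟩
          rw [← e_add]
          congr 1
          rw [hu]
          have e1 : ∑ i, f i ((Fin.consEquiv ι) (x0, x')) = f0 x' + ∑ i : Fin (k + 1), f i.succ (Fin.cons x0 x') := by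
            rw [Fin.sum_univ_succ, ← hf0 x0 x']
            rfl
          rw [e1]
          have e2 : ∀ c, ∏ i, a i ((Fin.consEquiv ι) (x0, x') i) c = a 0 x0 c * ∏ i : Fin (k + 1), a i.succ (x' i) c := by
            intro c
            rw [Fin.prod_univ_succ]
            rfl
          simp only [e2]
          ring
      rw [h1]
      refine (norm_sum_le _ _).trans (le_of_eq ?_)
      refine sum_congr rfl fun x' _ => ?_
      rw [norm_mul, norm_e, one_mul]
    have s2 : (∑ x', ‖T x'‖) ^ P ≤ I1 ^ (P - 1) * ∑ x', ‖T x'‖ ^ P := by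
      have := pow_mean univ (fun x' => ‖T x'‖) (fun _ _ => norm_nonneg _) P hP1
      have e1 : ((univ : Finset (∀ i : Fin (k + 1), ι i.succ)).card : ℝ) = I1 := by
        rw [card_univ, Fintype.card_pi, hI1]
        push_cast
        rfl
      rwa [e1] at this
    obtain ⟨F, hF⟩ : ∃ F : Pr h (ι 0) → Fin (k + 1) → (∀ i : Fin (k + 1), ι i.succ) → ℤ, F = fun q i x' =>
      ∑ j, f i.succ (Fin.cons (q.1 j) x') - ∑ j, f i.succ (Fin.cons (q.2 j) x') := ⟨_, rfl⟩
    obtain ⟨S', hS'⟩ : ∃ S' : Pr h (ι 0) → ℂ, S' = fun q => ∑ x' : ∀ i : Fin (k + 1), ι i.succ,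
      e t (κ * ∑ c, (w c * Del (a 0) q c) * ∏ i : Fin (k + 1), a i.succ (x' i) c + ∑ i, F q i x') := ⟨_, rfl⟩
    have s3 : ∑ x', ‖T x'‖ ^ P ≤ ∑ q, ‖S' q‖ := by
      have c1 : ((∑ x', ‖T x'‖ ^ P : ℝ) : ℂ) = ∑ q, S' q := by
        rw [Complex.ofReal_sum, hT, hP]
        simp only
        rw [sum_congr rfl fun x' _ => moment t h (u x'), sum_comm]
        refine sum_congr rfl fun q _ => ?_
        rw [hS']
        refine sum_congr rfl fun x' _ => ?_
        congr 1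
        rw [← phase κ w (fun c => ∏ i : Fin (k + 1), a i.succ (x' i) c) (a 0) q, hu, hF]
        simp only
        rw [sum_add_distrib, sum_add_distrib, sum_sub_distrib, sum_comm (s := univ) (t := univ)
          (f := fun (i : Fin (k + 1)) (j : Fin h) => f i.succ (Fin.cons (q.1 j) x')),
          sum_comm (s := univ) (t := univ) (f := fun (i : Fin (k + 1)) (j : Fin h) => f i.succ (Fin.cons (q.2 j) x'))]
        ring
      have c3 : (0 : ℝ) ≤ ∑ x', ‖T x'‖ ^ P := sum_nonneg fun i _ => pow_nonneg (norm_nonneg _) _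
      have c4 : ∑ x', ‖T x'‖ ^ P = ‖((∑ x', ‖T x'‖ ^ P : ℝ) : ℂ)‖ := by
        rw [Complex.norm_real, Real.norm_of_nonneg c3]
      rw [c4, c1]
      exact norm_sum_le _ _
    have s4 : (∑ q, ‖S' q‖) ^ A ≤ (I0 ^ P) ^ (A - 1) * ∑ q, ‖S' q‖ ^ A := by
      have := pow_mean univ (fun q => ‖S' q‖) (fun _ _ => norm_nonneg _) A hA1
      have e1 : ((univ : Finset (Pr h (ι 0))).card : ℝ) = I0 ^ P := by
        rw [card_univ, Fintype.card_prod, Fintype.card_fun, Fintype.card_fin, hI0, hP]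
        push_cast
        ring
      rwa [e1] at this
    have s5 : ∀ q, ‖S' q‖ ^ A ≤ I1 ^ (A - P) * BB t κ h d k (fun i => ι i.succ) (fun i => a i.succ)
        (fun c => w c * Del (a 0) q c) := by
      intro q
      have := ih (fun i => ι i.succ) (fun i => a i.succ) (fun c => w c * Del (a 0) q c) (F q) (by
        intro i x y hxy
        rw [hF]
        simp only
        have hc : ∀ x0 : ι 0, f i.succ (Fin.cons x0 x) = f i.succ (Fin.cons x0 y) := by
          intro x0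
          apply hf i.succ
          intro j hj
          rcases Fin.eq_zero_or_eq_succ j with rfl | ⟨j', rfl⟩
          · rw [Fin.cons_zero, Fin.cons_zero]
          · rw [Fin.cons_succ, Fin.cons_succ]
            exact hxy j' (fun h0 => hj (by rw [h0]))
        simp only [hc])
      rw [hS', hA, hI1, hP]
      exact this
    have s6 : ∑ q, ‖S' q‖ ^ A ≤ I1 ^ (A - P) * BB t κ h d (k + 1) ι a w := by
      refine (sum_le_sum fun q _ => s5 q).trans (le_of_eq ?_)
      rw [← mul_sum]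
      rfl
    have hB0 := BB_nonneg t κ h d (k + 1) ι a w
    obtain ⟨E1, E2⟩ := exps A P hP1 hPA
    rw [pow_mul]
    calc (‖∑ x : ∀ i, ι i, e t (κ * ∑ c, w c * ∏ i, a i (x i) c + ∑ i, f i x)‖ ^ P) ^ A
        ≤ (I1 ^ (P - 1) * ∑ q, ‖S' q‖) ^ A := by
          apply pow_le_pow_left₀ (by positivity)
          refine (pow_le_pow_left₀ (norm_nonneg _) s1 _).trans (s2.trans ?_)
          exact mul_le_mul_of_nonneg_left s3 (by positivity)
      _ = I1 ^ ((P - 1) * A) * (∑ q, ‖S' q‖) ^ A := by rw [mul_pow, ← pow_mul]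
      _ ≤ I1 ^ ((P - 1) * A) * ((I0 ^ P) ^ (A - 1) * (I1 ^ (A - P) * BB t κ h d (k + 1) ι a w)) := by
          apply mul_le_mul_of_nonneg_left _ (by positivity)
          refine s4.trans ?_
          exact mul_le_mul_of_nonneg_left s6 (by positivity)
      _ = (I0 ^ (P * (A - 1)) * I1 ^ ((P - 1) * A + (A - P))) * BB t κ h d (k + 1) ι a w := by
          rw [← pow_mul, pow_add]
          ring
      _ = _ := by rw [E1, E2, mul_pow]

end

end Pool.Agent.W5h1.MLin
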