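import Pool.Agent.W5h1.MLin.A
import Pool.Agent.TH935.LP.L1

set_option autoImplicit false

/-! Additive energies of multilinear families: counting. -/

namespace Pool.Agent.W5h1.MLin
open Finset
open Pool.Agent.W5h80.Bil (e e_add e_sub e_zero norm_e e_sum sum_e moment pow_mean Del EnV fiber_le group_le second_moment)

/-- the box -/
noncomputable def Bx {k : ℕ} (R : Fin k → ℕ) : Finset (Fin k → ℤ) :=
  Fintype.piFinset (fun i => Icc (-(R i : ℤ)) (R i))

lemma card_Bx {k : ℕ} (R : Fin k → ℕ) : (Bx R).card = ∏ i, (2 * R i + 1) := by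
  unfold Bx
  rw [Fintype.card_piFinset]
  refine prod_congr rfl fun i _ => ?_
  rw [Int.card_Icc]
  omega

lemma mem_Bx {k : ℕ} (R : Fin k → ℕ) (z : Fin k → ℤ) : z ∈ Bx R ↔ ∀ i, |z i| ≤ R i := by
  unfold Bx
  rw [Fintype.mem_piFinset]
  refine forall_congr' fun i => ?_
  rw [mem_Icc, abs_le]

lemma abs_prod_le {k : ℕ} (R : Fin k → ℕ) (z : Fin k → ℤ) (hz : z ∈ Bx R) :
    |∏ i, z i| ≤ ((∏ i, R i : ℕ) : ℤ) := by
  rw [abs_prod]
  push_cast
  exact prod_le_prod (fun i _ => abs_nonneg _) (fun i _ => (mem_Bx R z).1 hz i)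

lemma rep_le {k : ℕ} (R : Fin k → ℕ) (n : ℤ) (hn : n ≠ 0) :
    ((Bx R).filter (fun z => ∏ i, z i = n)).card ≤ (2 * n.natAbs.divisors.card) ^ k := by
  classical
  obtain ⟨D, hD⟩ : ∃ D : Finset ℤ, D = n.natAbs.divisors.image (fun m : ℕ => (m : ℤ)) ∪
    n.natAbs.divisors.image (fun m : ℕ => -(m : ℤ)) := ⟨_, rfl⟩
  have hDc : D.card ≤ 2 * n.natAbs.divisors.card := by
    rw [hD]
    refine (card_union_le _ _).trans ?_
    have h1 := card_image_le (s := n.natAbs.divisors) (f := fun m : ℕ => (m : ℤ))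
    have h2 := card_image_le (s := n.natAbs.divisors) (f := fun m : ℕ => -(m : ℤ))
    omega
  have hsub : (Bx R).filter (fun z => ∏ i, z i = n) ⊆ Fintype.piFinset (fun _ : Fin k => D) := by
    intro z hz
    rw [mem_filter] at hz
    rw [Fintype.mem_piFinset]
    intro i
    have h1 : z i ∣ n := by
      rw [← hz.2]
      exact dvd_prod_of_mem _ (mem_univ i)
    have h2 : (z i).natAbs ∈ n.natAbs.divisors := by
      rw [Nat.mem_divisors]
      exact ⟨Int.natAbs_dvd_natAbs.2 h1, Int.natAbs_ne_zero.2 hn⟩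
    rw [hD, mem_union, mem_image, mem_image]
    rcases Int.natAbs_eq (z i) with h3 | h3
    · left
      exact ⟨_, h2, h3.symm⟩
    · right
      exact ⟨_, h2, h3.symm⟩
  refine (card_le_card hsub).trans ?_
  rw [Fintype.card_piFinset, prod_const, card_univ, Fintype.card_fin]
  exact Nat.pow_le_pow_left hDc k

/-- the members of the box with nonzero product -/
noncomputable def Sx {k : ℕ} (R : Fin k → ℕ) : Finset (Fin k → ℤ) := (Bx R).filter (fun z => ∏ i, z i ≠ 0)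

/-- the number of the pairs with equal nonzero products -/
noncomputable def E2 {k : ℕ} (R : Fin k → ℕ) : ℕ :=
  ((Sx R ×ˢ Sx R).filter (fun p => ∏ i, p.1 i = ∏ i, p.2 i)).card

lemma E2_le {k : ℕ} (R : Fin k → ℕ) :
    (E2 R : ℝ) ≤ 2 * 4 ^ k * ((∏ i, R i : ℕ) * (1 + Real.log (∏ i, R i : ℕ)) ^ (2 ^ (2 * k))) := by
  classical
  obtain ⟨g, hg⟩ : ∃ g : ℕ → ℕ, g = fun m => (2 * m.divisors.card) ^ k := ⟨_, rfl⟩
  have h1 : E2 R ≤ ∑ z ∈ Sx R, g (∏ i, z i).natAbs := by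
    unfold E2
    rw [card_filter, sum_product]
    refine sum_le_sum fun z hz => ?_
    rw [← card_filter]
    unfold Sx at hz ⊢
    rw [mem_filter] at hz
    rw [hg]
    refine le_trans ?_ (rep_le R (∏ i, z i) hz.2)
    apply card_le_card
    intro z' hz'
    rw [mem_filter, mem_filter] at hz'
    rw [mem_filter]
    exact ⟨hz'.1.1, hz'.2.symm⟩
  have h2 : ∑ z ∈ Sx R, g (∏ i, z i).natAbs ≤ ∑ m ∈ Icc 1 (∏ i, R i), 2 * g m * g m := by
    rw [← sum_fiberwise_of_maps_to (s := Sx R) (t := Icc 1 (∏ i, R i)) (g := fun z => (∏ i, z i).natAbs)]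
    · refine sum_le_sum fun m hm => ?_
      rw [mem_Icc] at hm
      rw [sum_congr rfl (g := fun _ => g m) (fun z hz => by rw [(mem_filter.1 hz).2]), sum_const, smul_eq_mul]
      apply Nat.mul_le_mul_right
      have hsub : (Sx R).filter (fun z => (∏ i, z i).natAbs = m) ⊆
          (Bx R).filter (fun z => ∏ i, z i = (m : ℤ)) ∪ (Bx R).filter (fun z => ∏ i, z i = -(m : ℤ)) := by
        intro z hz
        rw [mem_filter] at hz
        have hz1 := hz.1
        unfold Sx at hz1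
        rw [mem_filter] at hz1
        rw [mem_union, mem_filter, mem_filter]
        rcases Int.natAbs_eq (∏ i, z i) with h3 | h3
        · left
          exact ⟨hz1.1, by rw [h3, hz.2]⟩
        · right
          exact ⟨hz1.1, by rw [h3, hz.2]⟩
      have e1 := rep_le R (m : ℤ) (by omega)
      have e2 := rep_le R (-(m : ℤ)) (by omega)
      rw [Int.natAbs_neg] at e2
      rw [Int.natAbs_natCast] at e1 e2
      have e3 := (card_le_card hsub).trans (card_union_le _ _)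
      rw [hg]
      simp only
      omega
    · intro z hz
      unfold Sx at hz
      rw [mem_filter] at hz
      rw [mem_Icc]
      refine ⟨Int.natAbs_pos.2 hz.2, ?_⟩
      have := abs_prod_le R z hz.1
      rw [Int.abs_eq_natAbs] at this
      exact_mod_cast this
  have h3 : (E2 R : ℝ) ≤ ∑ m ∈ Icc 1 (∏ i, R i), 2 * 4 ^ k * (m.divisors.card : ℝ) ^ (2 * k) := by
    have h4 : (E2 R : ℝ) ≤ ((∑ m ∈ Icc 1 (∏ i, R i), 2 * g m * g m : ℕ) : ℝ) := by exact_mod_cast h1.trans h2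
    refine h4.trans (le_of_eq ?_)
    rw [Nat.cast_sum]
    refine sum_congr rfl fun m _ => ?_
    rw [hg]
    push_cast
    have e5 : (2 : ℝ) ^ k * 2 ^ k = 4 ^ k := by
      rw [← mul_pow]
      norm_num
    calc 2 * (2 * (m.divisors.card : ℝ)) ^ k * (2 * (m.divisors.card : ℝ)) ^ k =
        2 * ((2 : ℝ) ^ k * 2 ^ k) * ((m.divisors.card : ℝ) ^ k * (m.divisors.card : ℝ) ^ k) := by rw [mul_pow]; ring
      _ = _ := by rw [e5, ← pow_add, two_mul k]
  refine h3.trans ?_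
  rw [← mul_sum]
  exact mul_le_mul_of_nonneg_left (Pool.Agent.TH935.LD.tau_pow_sum (2 * k) _) (by positivity)

/-- the number of the members of the box with product zero -/
noncomputable def Z0 {k : ℕ} (R : Fin k → ℕ) : ℕ := ((Bx R).filter (fun z => ∏ i, z i = 0)).card

lemma Z0_le {k : ℕ} (R : Fin k → ℕ) (ρ : ℝ) (hρ0 : 0 ≤ ρ) (hρ : ∀ i, ρ ≤ R i) : (Z0 R : ℝ) * ρ ≤ k * (Bx R).card := by
  classical
  have h1 : Z0 R ≤ ∑ i : Fin k, ((Bx R).filter (fun z => z i = 0)).card := by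
    unfold Z0
    refine (card_le_card ?_).trans card_biUnion_le
    intro z hz
    rw [mem_filter, prod_eq_zero_iff] at hz
    obtain ⟨h2, i, _, h3⟩ := hz
    rw [mem_biUnion]
    exact ⟨i, mem_univ _, mem_filter.2 ⟨h2, h3⟩⟩
  have h2 : ∀ i : Fin k, ((Bx R).filter (fun z => z i = 0)).card * R i ≤ (Bx R).card := by
    intro i
    have h3 : (((Bx R).filter (fun z => z i = 0)) ×ˢ (Icc (1 : ℤ) (R i))).card ≤ (Bx R).card := by
      refine card_le_card_of_injOn (fun p => Function.update p.1 i p.2) ?_ ?_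
      · rintro ⟨z, s⟩ hp
        rw [mem_coe, mem_product, mem_filter, mem_Icc] at hp
        rw [mem_coe, mem_Bx]
        intro j
        by_cases hj : j = i
        · subst hj
          simp only [Function.update_self]
          rw [abs_le]
          have := hp.2
          simp only at this
          constructor <;> omega
        · simp only [Function.update_of_ne hj]
          exact (mem_Bx R z).1 hp.1.1 j
      · rintro ⟨z, s⟩ hp ⟨z', s'⟩ hp' heq
        rw [mem_coe, mem_product, mem_filter] at hp hp'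
        simp only at heq
        have e1 : s = s' := by
          have := congrFun heq i
          rwa [Function.update_self, Function.update_self] at this
        have e2 : z = z' := by
          funext j
          by_cases hj : j = i
          · subst hj
            have a1 := hp.1.2
            have a2 := hp'.1.2
            simp only at a1 a2
            rw [a1, a2]
          · have := congrFun heq j
            rwa [Function.update_of_ne hj, Function.update_of_ne hj] at this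
        rw [e1, e2]
    rw [card_product, Int.card_Icc] at h3
    have h4 : ((R i : ℤ) + 1 - 1).toNat = R i := by omega
    rwa [h4] at h3
  have h3 : (Z0 R : ℝ) * ρ ≤ ∑ i : Fin k, (((Bx R).filter (fun z => z i = 0)).card : ℝ) * ρ := by
    rw [← sum_mul]
    apply mul_le_mul_of_nonneg_right _ hρ0
    exact_mod_cast h1
  refine h3.trans ?_
  calc ∑ i : Fin k, (((Bx R).filter (fun z => z i = 0)).card : ℝ) * ρ ≤ ∑ _i : Fin k, ((Bx R).card : ℝ) := by
        refine sum_le_sum fun i _ => ?_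
        refine (mul_le_mul_of_nonneg_left (hρ i) (Nat.cast_nonneg _)).trans ?_
        exact_mod_cast h2 i
    _ = k * (Bx R).card := by rw [sum_const, card_univ, Fintype.card_fin, nsmul_eq_mul]

/-- the zeros of a sum of products -/
noncomputable def Cn {k : ℕ} (Λ : Type) [Fintype Λ] [DecidableEq Λ] (R : Fin k → ℕ) : ℕ :=
  ((Fintype.piFinset (fun _ : Λ => Bx R)).filter (fun n => ∑ l, ∏ i, n l i = 0)).card

lemma Cn_le {k : ℕ} (Λ : Type) [Fintype Λ] [DecidableEq Λ] (R : Fin k → ℕ) (hL : 2 ≤ Fintype.card Λ) :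
    (Cn Λ R : ℝ) ≤ 2 ^ Fintype.card Λ * ((Z0 R : ℝ) ^ Fintype.card Λ +
      ((Bx R).card : ℝ) ^ (Fintype.card Λ - 2) * E2 R) := by
  classical
  obtain ⟨L, hLL⟩ : ∃ L, L = Fintype.card Λ := ⟨_, rfl⟩
  rw [← hLL] at hL ⊢
  obtain ⟨M, hM⟩ : ∃ M : ℕ, M = 2 * (∏ i, R i) + 1 := ⟨_, rfl⟩
  have : NeZero M := ⟨by omega⟩
  have hM0 : (0 : ℝ) < M := by exact_mod_cast (by omega : 0 < M)
  obtain ⟨F, hF⟩ : ∃ F : ZMod M → ℂ, F = fun t => ∑ z ∈ Bx R, e t (∏ i, z i) := ⟨_, rfl⟩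
  obtain ⟨G, hG⟩ : ∃ G : ZMod M → ℂ, G = fun t => ∑ z ∈ Sx R, e t (∏ i, z i) := ⟨_, rfl⟩
  have a1 : ∀ t, F t ^ L = ∑ n ∈ Fintype.piFinset (fun _ : Λ => Bx R), e t (∑ l, ∏ i, n l i) := by
    intro t
    have h1 : F t ^ L = ∏ _l : Λ, ∑ z ∈ Bx R, e t (∏ i, z i) := by
      rw [prod_const, card_univ, hF, hLL]
    rw [h1, prod_univ_sum]
    exact sum_congr rfl fun n _ => (e_sum t _ _).symm
  have a2 : ∑ t, F t ^ L = (((M : ℝ) * ((Fintype.piFinset (fun _ : Λ => Bx R)).filter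
      (fun n => ((∑ l, ∏ i, n l i : ℤ) : ZMod M) = 0)).card : ℝ) : ℂ) := by
    rw [sum_congr rfl fun t _ => a1 t, sum_comm, sum_congr rfl fun n _ => sum_e _, ← sum_filter, sum_const,
      nsmul_eq_mul]
    push_cast
    ring
  have a3 : (M : ℝ) * Cn Λ R ≤ ∑ t, ‖F t‖ ^ L := by
    have h1 : Cn Λ R ≤ ((Fintype.piFinset (fun _ : Λ => Bx R)).filter
      (fun n => ((∑ l, ∏ i, n l i : ℤ) : ZMod M) = 0)).card := by
      unfold Cn
      apply card_le_card
      intro n hn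
      rw [mem_filter] at hn ⊢
      refine ⟨hn.1, ?_⟩
      rw [hn.2, Int.cast_zero]
    have h2 : (M : ℝ) * Cn Λ R ≤ (M : ℝ) * ((Fintype.piFinset (fun _ : Λ => Bx R)).filter
      (fun n => ((∑ l, ∏ i, n l i : ℤ) : ZMod M) = 0)).card :=
      mul_le_mul_of_nonneg_left (by exact_mod_cast h1) hM0.le
    refine h2.trans ?_
    have h3 : ‖∑ t, F t ^ L‖ = (M : ℝ) * ((Fintype.piFinset (fun _ : Λ => Bx R)).filter
      (fun n => ((∑ l, ∏ i, n l i : ℤ) : ZMod M) = 0)).card := by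
      rw [a2, Complex.norm_real, Real.norm_of_nonneg (by positivity)]
    rw [← h3]
    refine (norm_sum_le _ _).trans (le_of_eq ?_)
    exact sum_congr rfl fun t _ => norm_pow _ _
  have a4 : ∀ t, F t = (Z0 R : ℂ) + G t := by
    intro t
    rw [hF, hG]
    simp only
    rw [← sum_filter_add_sum_filter_not (Bx R) (fun z => ∏ i, z i = 0)]
    congr 1
    rw [sum_congr rfl (g := fun _ => (1 : ℂ)) (fun z hz => by rw [(mem_filter.1 hz).2, e_zero]), sum_const, nsmul_eq_mul,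
      mul_one]
    rfl
  have hGB : ∀ t, ‖G t‖ ≤ (Bx R).card := by
    intro t
    rw [hG]
    refine (norm_sum_le _ _).trans ?_
    rw [sum_congr rfl fun z _ => norm_e t _, sum_const, nsmul_eq_mul, mul_one]
    exact_mod_cast card_le_card (filter_subset _ _)
  have a5 : ∀ t, ‖F t‖ ^ L ≤ 2 ^ L * ((Z0 R : ℝ) ^ L + ((Bx R).card : ℝ) ^ (L - 2) * ‖G t‖ ^ 2) := by
    intro t
    have h1 : ‖F t‖ ≤ (Z0 R : ℝ) + ‖G t‖ := by
      rw [a4]
      refine (norm_add_le _ _).trans ?_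
      rw [Complex.norm_natCast]
    have h2 := add_pow_le (Nat.cast_nonneg (Z0 R) : (0 : ℝ) ≤ Z0 R) (norm_nonneg (G t)) L
    have h3 : ‖G t‖ ^ L ≤ ((Bx R).card : ℝ) ^ (L - 2) * ‖G t‖ ^ 2 := by
      have e1 : L = (L - 2) + 2 := by omega
      calc ‖G t‖ ^ L = ‖G t‖ ^ (L - 2) * ‖G t‖ ^ 2 := by rw [← pow_add, ← e1]
        _ ≤ _ := mul_le_mul_of_nonneg_right (pow_le_pow_left₀ (norm_nonneg _) (hGB t) _) (by positivity)
    have h4 : (2 : ℝ) ^ (L - 1) ≤ 2 ^ L := pow_le_pow_right₀ (by norm_num) (by omega)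
    calc ‖F t‖ ^ L ≤ ((Z0 R : ℝ) + ‖G t‖) ^ L := pow_le_pow_left₀ (norm_nonneg _) h1 _
      _ ≤ 2 ^ (L - 1) * ((Z0 R : ℝ) ^ L + ‖G t‖ ^ L) := h2
      _ ≤ 2 ^ L * ((Z0 R : ℝ) ^ L + ((Bx R).card : ℝ) ^ (L - 2) * ‖G t‖ ^ 2) := by
          apply mul_le_mul h4 _ (by positivity) (by positivity)
          linarith
  have a6 : ∑ t, ‖G t‖ ^ 2 = M * E2 R := by
    have := second_moment (M := M) (Sx R) (fun z => ∏ i, z i) (by
      intro z hz z' hz'
      unfold Sx at hz hz'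
      rw [mem_filter] at hz hz'
      have h1 := abs_prod_le R z hz.1
      have h2 := abs_prod_le R z' hz'.1
      have h3 := abs_sub (∏ i, z i) (∏ i, z' i)
      rw [hM]
      push_cast at h1 h2 ⊢
      linarith)
    rw [hG]
    exact this
  have a7 : ∑ t, ‖F t‖ ^ L ≤ M * (2 ^ L * ((Z0 R : ℝ) ^ L + ((Bx R).card : ℝ) ^ (L - 2) * E2 R)) := by
    refine (sum_le_sum fun t _ => a5 t).trans (le_of_eq ?_)
    rw [← mul_sum, sum_add_distrib, sum_const, card_univ, ZMod.card, nsmul_eq_mul, ← mul_sum, a6]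
    ring
  exact le_of_mul_le_mul_left (a3.trans a7) hM0

/-- the final bound for the number of the zeros -/
theorem Cn_bound {k : ℕ} (Λ : Type) [Fintype Λ] [DecidableEq Λ] (R : Fin k → ℕ) (s : ℕ) (hL : 2 ≤ Fintype.card Λ)
    (hs : s ≤ Fintype.card Λ) (hR1 : ∀ i, 1 ≤ R i) (hRs : ∀ i, ∏ i, R i ≤ R i ^ s) :
    (Cn Λ R : ℝ) * (∏ i, R i : ℕ) ≤ (3 ^ k * (∏ i, R i : ℕ)) ^ Fintype.card Λ *
      (2 ^ Fintype.card Λ * (k ^ Fintype.card Λ + 2 * 4 ^ k) * (1 + Real.log (∏ i, R i : ℕ)) ^ (2 ^ (2 * k))) := by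
  classical
  obtain ⟨L, hLL⟩ : ∃ L, L = Fintype.card Λ := ⟨_, rfl⟩
  have h0 := Cn_le Λ R hL
  rw [← hLL] at hL hs h0 ⊢
  obtain ⟨N, hN⟩ : ∃ N : ℕ, N = ∏ i, R i := ⟨_, rfl⟩
  rw [← hN]
  have hN1 : 1 ≤ N := by
    rw [hN]
    exact Nat.one_le_iff_ne_zero.2 (prod_ne_zero_iff.2 fun i _ => by have := hR1 i; omega)
  have hN1r : (1 : ℝ) ≤ N := by exact_mod_cast hN1
  have hN0 : (0 : ℝ) < N := by linarith
  obtain ⟨β, hβ⟩ : ∃ β : ℝ, β = (Bx R).card := ⟨_, rfl⟩
  rw [← hβ] at h0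
  have hβ1 : (N : ℝ) ≤ β := by
    rw [hβ, hN, card_Bx]
    exact_mod_cast prod_le_prod' fun i _ => (by omega : R i ≤ 2 * R i + 1)
  have hβ2 : β ≤ 3 ^ k * N := by
    rw [hβ, hN, card_Bx]
    have h1 : ∏ i : Fin k, (2 * R i + 1) ≤ ∏ i : Fin k, (3 * R i) :=
      prod_le_prod' fun i _ => by have := hR1 i; omega
    rw [prod_mul_distrib, prod_const, card_univ, Fintype.card_fin] at h1
    exact_mod_cast h1
  have hβ0 : 0 ≤ β := hN0.le.trans hβ1
  obtain ⟨ℓ, hℓ⟩ : ∃ ℓ : ℝ, ℓ = (1 + Real.log N) ^ (2 ^ (2 * k)) := ⟨_, rfl⟩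
  have hlog : 0 ≤ Real.log N := Real.log_nonneg hN1r
  have hℓ1 : 1 ≤ ℓ := by
    rw [hℓ]
    exact one_le_pow₀ (by linarith)
  rw [← hℓ]
  have hE := E2_le R
  rw [← hN, ← hℓ] at hE
  -- the zeros
  have hZ : (Z0 R : ℝ) ^ L * N ≤ k ^ L * β ^ L := by
    obtain ⟨ρ, hρ⟩ : ∃ ρ : ℝ, ρ = (N : ℝ) ^ ((1 : ℝ) / L) := ⟨_, rfl⟩
    have hLpos : (0 : ℝ) < L := by exact_mod_cast (by omega : 0 < L)
    have hρ0 : 0 ≤ ρ := by rw [hρ]; positivity
    have hρL : ρ ^ L = N := by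
      rw [hρ, ← Real.rpow_natCast, ← Real.rpow_mul hN0.le, one_div, inv_mul_cancel₀ hLpos.ne', Real.rpow_one]
    have hρR : ∀ i, ρ ≤ R i := by
      intro i
      have h1 : (N : ℝ) ≤ (R i : ℝ) ^ L := by
        have h2 := hRs i
        rw [← hN] at h2
        have h3 : R i ^ s ≤ R i ^ L := Nat.pow_le_pow_right (hR1 i) hs
        exact_mod_cast h2.trans h3
      rw [← hρL] at h1
      exact le_of_pow_le_pow_left₀ (by omega) (Nat.cast_nonneg _) h1
    have h1 := Z0_le R ρ hρ0 hρR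
    rw [← hβ] at h1
    calc (Z0 R : ℝ) ^ L * N = ((Z0 R : ℝ) * ρ) ^ L := by rw [mul_pow, hρL]
      _ ≤ (k * β) ^ L := pow_le_pow_left₀ (by positivity) h1 _
      _ = k ^ L * β ^ L := mul_pow _ _ _
  have hE' : β ^ (L - 2) * E2 R * N ≤ 2 * 4 ^ k * ℓ * β ^ L := by
    have e1 : L = (L - 2) + 2 := by omega
    calc β ^ (L - 2) * E2 R * N ≤ β ^ (L - 2) * (2 * 4 ^ k * (N * ℓ)) * N := by gcongr
      _ = 2 * 4 ^ k * ℓ * (β ^ (L - 2) * N ^ 2) := by ring
      _ ≤ 2 * 4 ^ k * ℓ * (β ^ (L - 2) * β ^ 2) := by gcongr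
      _ = _ := by rw [← pow_add, ← e1]
  have hk0 : (0 : ℝ) ≤ k ^ L := by positivity
  calc (Cn Λ R : ℝ) * N ≤ 2 ^ L * ((Z0 R : ℝ) ^ L + β ^ (L - 2) * E2 R) * N :=
        mul_le_mul_of_nonneg_right h0 hN0.le
    _ = 2 ^ L * ((Z0 R : ℝ) ^ L * N + β ^ (L - 2) * E2 R * N) := by ring
    _ ≤ 2 ^ L * (k ^ L * β ^ L + 2 * 4 ^ k * ℓ * β ^ L) := by gcongr
    _ ≤ 2 ^ L * (k ^ L * β ^ L * ℓ + 2 * 4 ^ k * ℓ * β ^ L) := by
        have : k ^ L * β ^ L ≤ k ^ L * β ^ L * ℓ := le_mul_of_one_le_right (by positivity) hℓ1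
        gcongr
    _ = β ^ L * (2 ^ L * (k ^ L + 2 * 4 ^ k) * ℓ) := by ring
    _ ≤ _ := by gcongr

end Pool.Agent.W5h1.MLin
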