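import Pool.Agent.W5h1.MLin.B

set_option autoImplicit false

/-! Additive energies of multilinear families: the bound. -/

namespace Pool.Agent.W5h1.MLin
open Finset
open Pool.Agent.W5h80.Bil (e e_add e_sub e_zero norm_e e_sum sum_e moment pow_mean Del Del_box EnV EnZ energy_le_moment
  fiber_le group_le second_moment)

lemma BB_moment {M : ℕ} [NeZero M] (κ : ℤ) (hκ : κ ≠ 0) (h d m k : ℕ) (ι : Fin (k + 1) → Type) [∀ i, Fintype (ι i)]
    (a : ∀ i, ι i → Fin d → ℤ) (R : Fin (k + 1) → ℕ) (hR : ∀ i (q : Pr h (ι i)) c, |Del (a i) q c| ≤ R i)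
    (hM : κ.natAbs * (m * d * ∏ i, R i) < M) :
    ∑ t : ZMod M, BB t κ h d k ι a (fun _ => 1) ^ m ≤
      M * ((∏ i, (EnV h (a i) : ℝ)) ^ m * Cn (Fin m × Fin d) R) := by
  classical
  obtain ⟨D, hD⟩ : ∃ D : (Fin m → ∀ i, Pr h (ι i)) → (Fin m × Fin d) → Fin (k + 1) → ℤ,
    D = fun Q l i => Del (a i) (Q l.1 i) l.2 := ⟨_, rfl⟩
  have hDB : ∀ Q l, D Q l ∈ Bx R := by
    intro Q l
    rw [mem_Bx]
    intro i
    rw [hD]
    exact hR i _ _
  have a1 : ∀ t : ZMod M, ((BB t κ h d k ι a (fun _ => 1) ^ m : ℝ) : ℂ) =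
      ∑ Q : Fin m → ∀ i, Pr h (ι i), e t (κ * ∑ l, ∏ i, D Q l i) := by
    intro t
    rw [Complex.ofReal_pow, BB_eq, Fintype.sum_pow]
    refine sum_congr rfl fun Q _ => ?_
    rw [← e_sum]
    congr 1
    rw [← mul_sum, Fintype.sum_prod_type]
    congr 1
    refine sum_congr rfl fun j _ => sum_congr rfl fun c _ => ?_
    rw [one_mul, hD]
  have a2 : ∑ t : ZMod M, BB t κ h d k ι a (fun _ => 1) ^ m =
      M * ((univ.filter (fun Q : Fin m → ∀ i, Pr h (ι i) => ((κ * ∑ l, ∏ i, D Q l i : ℤ) : ZMod M) = 0)).card : ℝ) := by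
    apply Complex.ofReal_injective
    rw [Complex.ofReal_sum, sum_congr rfl fun t _ => a1 t, sum_comm, sum_congr rfl fun Q _ => sum_e _, ← sum_filter,
      sum_const, nsmul_eq_mul]
    push_cast
    ring
  have a3 : (univ.filter (fun Q : Fin m → ∀ i, Pr h (ι i) => ((κ * ∑ l, ∏ i, D Q l i : ℤ) : ZMod M) = 0)) ⊆
      univ.filter (fun Q : Fin m → ∀ i, Pr h (ι i) => ∑ l, ∏ i, D Q l i = 0) := by
    intro Q hQ
    rw [mem_filter] at hQ ⊢
    refine ⟨mem_univ _, ?_⟩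
    have h1 := hQ.2
    rw [ZMod.intCast_zmod_eq_zero_iff_dvd] at h1
    have h2 : |κ * ∑ l, ∏ i, D Q l i| < M := by
      have h3 : |∑ l, ∏ i, D Q l i| ≤ ((m * d * ∏ i, R i : ℕ) : ℤ) := by
        refine (abs_sum_le_sum_abs _ _).trans ?_
        refine (sum_le_sum fun l _ => abs_prod_le R _ (hDB Q l)).trans (le_of_eq ?_)
        rw [sum_const, card_univ, Fintype.card_prod, Fintype.card_fin, Fintype.card_fin, nsmul_eq_mul]
        push_cast
        ring
      rw [abs_mul, Int.abs_eq_natAbs κ]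
      have h4 : (κ.natAbs : ℤ) * |∑ l, ∏ i, D Q l i| ≤ (κ.natAbs : ℤ) * ((m * d * ∏ i, R i : ℕ) : ℤ) :=
        mul_le_mul_of_nonneg_left h3 (by positivity)
      have h5 : (κ.natAbs : ℤ) * ((m * d * ∏ i, R i : ℕ) : ℤ) < M := by exact_mod_cast hM
      exact h4.trans_lt h5
    have h3 := Int.eq_zero_of_abs_lt_dvd h1 h2
    rcases mul_eq_zero.1 h3 with h4 | h4
    · exact absurd h4 hκ
    · exact h4
  have a4 : ((univ.filter (fun Q : Fin m → ∀ i, Pr h (ι i) => ∑ l, ∏ i, D Q l i = 0)).card : ℝ) ≤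
      (∏ i, (EnV h (a i) : ℝ)) ^ m * Cn (Fin m × Fin d) R := by
    have h1 := group_le D (Fintype.piFinset (fun _ : Fin m × Fin d => Bx R)) (by
      intro Q
      rw [Fintype.mem_piFinset]
      exact hDB Q) ((∏ i, (EnV h (a i) : ℝ)) ^ m) (by
        intro n
        have h2 : univ.filter (fun Q : Fin m → ∀ i, Pr h (ι i) => D Q = n) ⊆ Fintype.piFinset (fun j : Fin m =>
            Fintype.piFinset (fun i : Fin (k + 1) => univ.filter (fun q : Pr h (ι i) =>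
              Del (a i) q = fun c => n (j, c) i))) := by
          intro Q hQ
          rw [mem_filter] at hQ
          rw [Fintype.mem_piFinset]
          intro j
          rw [Fintype.mem_piFinset]
          intro i
          rw [mem_filter]
          refine ⟨mem_univ _, funext fun c => ?_⟩
          rw [← hQ.2, hD]
        have h3 : ((univ.filter (fun Q : Fin m → ∀ i, Pr h (ι i) => D Q = n)).card : ℝ) ≤
            ∏ j : Fin m, ∏ i : Fin (k + 1), ((univ.filter (fun q : Pr h (ι i) =>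
              Del (a i) q = fun c => n (j, c) i)).card : ℝ) := by
          have h4 := card_le_card h2
          rw [Fintype.card_piFinset] at h4
          simp only [Fintype.card_piFinset] at h4
          exact_mod_cast h4
        refine h3.trans ?_
        calc ∏ j : Fin m, ∏ i : Fin (k + 1), ((univ.filter (fun q : Pr h (ι i) =>
              Del (a i) q = fun c => n (j, c) i)).card : ℝ) ≤ ∏ _j : Fin m, ∏ i : Fin (k + 1), (EnV h (a i) : ℝ) := by
              refine prod_le_prod (fun j _ => prod_nonneg fun i _ => Nat.cast_nonneg _) fun j _ => ?_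
              exact prod_le_prod (fun i _ => Nat.cast_nonneg _) fun i _ => fiber_le (a i) _
          _ = _ := by rw [prod_const, card_univ, Fintype.card_fin]) (fun n => if ∑ l, ∏ i, n l i = 0 then (1 : ℝ) else 0) (by
        intro n
        split_ifs <;> norm_num)
    rw [← sum_filter, sum_const, nsmul_eq_mul, mul_one, ← sum_filter, sum_const, nsmul_eq_mul, mul_one] at h1
    exact h1
  rw [a2]
  apply mul_le_mul_of_nonneg_left _ (Nat.cast_nonneg _)
  exact le_trans (by exact_mod_cast card_le_card a3) a4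

/-- the order of the energy -/
def ord (h s k : ℕ) : ℕ := h * (2 * h) ^ k * (k + 2 + s)

/-- the exponent of the logarithm -/
def lexp (k : ℕ) : ℕ := 2 ^ (2 * (k + 1))

/-- the multilinear family -/
def val {k d : ℕ} {ι : Fin (k + 1) → Type} (κ : ℤ) (a : ∀ i, ι i → Fin d → ℤ) (f : Fin (k + 1) → (∀ i, ι i) → ℤ)
    (x : ∀ i, ι i) : ℤ := κ * ∑ c, ∏ i, a i (x i) c + ∑ i, f i x

set_option maxHeartbeats 4000000 in
/-- **The energy of a multilinear family.** -/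
theorem energy_bound (d h s B k : ℕ) (hd : 1 ≤ d) (hh : 1 ≤ h) (hB : 1 ≤ B) (κ : ℤ) (hκ : κ ≠ 0) :
    ∃ C : ℝ, 0 < C ∧ ∀ X : Fin (k + 1) → ℕ, (∀ i, 1 ≤ X i) → (∀ i, ∏ j, X j ≤ X i ^ s) →
      ∀ (ι : Fin (k + 1) → Type) [∀ i, Fintype (ι i)] (a : ∀ i, ι i → Fin d → ℤ)
        (f : Fin (k + 1) → (∀ i, ι i) → ℤ), (∀ i x c, |a i x c| ≤ B * X i) → (∀ i, Free i (f i)) →
      ∀ L : ℝ, 0 ≤ L → (∀ i, (EnV h (a i) : ℝ) * (X i : ℝ) ^ d ≤ L * (Fintype.card (ι i) : ℝ) ^ (2 * h)) →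
      (EnZ (ord h s k) (val κ a f) : ℝ) * (∏ i, X i : ℕ) ≤
        C * L ^ ((k + 1) * (k + 2 + s)) * (1 + Real.log (∏ i, X i : ℕ)) ^ lexp k *
          (Fintype.card (∀ i, ι i) : ℝ) ^ (2 * ord h s k) := by
  classical
  obtain ⟨m, hm⟩ : ∃ m, m = k + 2 + s := ⟨_, rfl⟩
  obtain ⟨K, hK⟩ : ∃ K, K = k + 1 := ⟨_, rfl⟩
  obtain ⟨c0, hc0⟩ : ∃ c0 : ℕ, c0 = (2 * h * B) ^ K := ⟨_, rfl⟩
  have h2hB : 1 ≤ 2 * h * B := Nat.mul_pos (by omega) hB
  have hc01 : 1 ≤ c0 := by rw [hc0]; exact Nat.one_le_pow _ _ h2hB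
  obtain ⟨K1, hK1⟩ : ∃ K1 : ℝ, K1 = 2 ^ (m * d) * (K ^ (m * d) + 2 * 4 ^ K) := ⟨_, rfl⟩
  have hK10 : 0 < K1 := by rw [hK1]; positivity
  have hc0r : (1 : ℝ) ≤ c0 := by exact_mod_cast hc01
  have hlc0 : 0 ≤ Real.log c0 := Real.log_nonneg hc0r
  refine ⟨(3 ^ K * c0) ^ (m * d) * K1 * (1 + Real.log c0) ^ lexp k, by positivity, ?_⟩
  intro X hX hXs ι _ a f ha hf L hL hE
  obtain ⟨N, hN⟩ : ∃ N : ℕ, N = ∏ i, X i := ⟨_, rfl⟩
  rw [← hN]
  have hN1 : 1 ≤ N := by
    rw [hN]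
    exact Nat.one_le_iff_ne_zero.2 (prod_ne_zero_iff.2 fun i _ => by have := hX i; omega)
  have hN1r : (1 : ℝ) ≤ N := by exact_mod_cast hN1
  have hN0 : (0 : ℝ) < N := by linarith
  have hlN : 0 ≤ Real.log N := Real.log_nonneg hN1r
  obtain ⟨R, hR⟩ : ∃ R : Fin (k + 1) → ℕ, R = fun i => 2 * h * B * X i := ⟨_, rfl⟩
  have hRN : ∏ i, R i = c0 * N := by
    rw [hR, prod_mul_distrib, prod_const, card_univ, Fintype.card_fin, hc0, hN, hK]
  have hR1 : ∀ i, 1 ≤ R i := by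
    intro i
    rw [hR]
    exact Nat.mul_pos h2hB (hX i)
  have hmd : m ≤ m * d := Nat.le_mul_of_pos_right _ hd
  have hcard : Fintype.card (Fin m × Fin d) = m * d := by
    rw [Fintype.card_prod, Fintype.card_fin, Fintype.card_fin]
  have hRs : ∀ i, ∏ j, R j ≤ R i ^ (m * d) := by
    intro i
    rw [hRN]
    have h1 : N ≤ X i ^ s := by rw [hN]; exact hXs i
    calc c0 * N ≤ (2 * h * B) ^ K * X i ^ s := by rw [hc0]; exact Nat.mul_le_mul_left _ h1
      _ ≤ (2 * h * B) ^ m * X i ^ m :=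
        Nat.mul_le_mul (Nat.pow_le_pow_right h2hB (by omega)) (Nat.pow_le_pow_right (hX i) (by omega))
      _ = R i ^ m := by rw [← mul_pow, hR]
      _ ≤ _ := Nat.pow_le_pow_right (hR1 i) hmd
  have hCn := Cn_bound (Fin m × Fin d) R (m * d) (by rw [hcard]; omega) (by rw [hcard]) hR1 hRs
  rw [hcard, hRN] at hCn
  have hCn2 : (Cn (Fin m × Fin d) R : ℝ) * ((c0 * N : ℕ) : ℝ) ≤ (3 ^ K * ((c0 * N : ℕ) : ℝ)) ^ (m * d) *
      (K1 * (1 + Real.log ((c0 * N : ℕ) : ℝ)) ^ lexp k) := by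
    rw [hK1, hK]
    unfold lexp
    exact hCn
  obtain ⟨M, hM⟩ : ∃ M : ℕ, M = κ.natAbs * (m * d * ∏ i, R i) + 1 := ⟨_, rfl⟩
  have : NeZero M := ⟨by omega⟩
  have hM0 : (0 : ℝ) < M := by exact_mod_cast (by omega : 0 < M)
  have hBB := BB_moment (M := M) κ hκ h d m k ι a R (by
    intro i q c
    have := Del_box (a i) (B * X i) (by push_cast; exact ha i) q c
    rw [hR]
    push_cast at this ⊢
    linarith) (by omega)
  obtain ⟨I, hI⟩ : ∃ I : ℝ, I = ∏ i, (Fintype.card (ι i) : ℝ) := ⟨_, rfl⟩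
  have hI0 : 0 ≤ I := by rw [hI]; positivity
  have hIc : (Fintype.card (∀ i, ι i) : ℝ) = I := by
    rw [Fintype.card_pi, hI]
    push_cast
    rfl
  rw [hIc]
  obtain ⟨P, hP⟩ : ∃ P, P = 2 * h := ⟨_, rfl⟩
  have hPA : P ≤ P ^ (k + 1) := Nat.le_self_pow (by omega) P
  have hord : 2 * ord h s k = P ^ (k + 1) * m := by
    unfold ord
    rw [← hm, hP, pow_succ]
    ring
  rw [hord, ← hm]
  have hEn : (0 : ℝ) ≤ ∏ i, (EnV h (a i) : ℝ) := prod_nonneg fun i _ => Nat.cast_nonneg _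
  -- the moment
  have b1 : (EnZ (ord h s k) (val κ a f) : ℝ) * M ≤
      I ^ ((P ^ (k + 1) - P) * m) * (M * ((∏ i, (EnV h (a i) : ℝ)) ^ m * Cn (Fin m × Fin d) R)) := by
    refine (energy_le_moment (M := M) (ord h s k) (val κ a f)).trans ?_
    refine le_trans ?_ (mul_le_mul_of_nonneg_left hBB (by positivity))
    rw [mul_sum]
    refine sum_le_sum fun t _ => ?_
    have h1 := main_ineq t κ h d hh k ι a (fun _ => 1) f hf
    simp only [one_mul] at h1
    rw [← hI, ← hP] at h1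
    rw [hord]
    have h2 := pow_le_pow_left₀ (by positivity) h1 m
    rw [mul_pow, ← pow_mul, ← pow_mul] at h2
    exact h2
  have b2 : (EnZ (ord h s k) (val κ a f) : ℝ) ≤
      I ^ ((P ^ (k + 1) - P) * m) * ((∏ i, (EnV h (a i) : ℝ)) ^ m * Cn (Fin m × Fin d) R) := by
    refine le_of_mul_le_mul_right ?_ hM0
    refine b1.trans (le_of_eq ?_)
    ring
  have b3 : (∏ i, (EnV h (a i) : ℝ)) * (N : ℝ) ^ d ≤ L ^ K * I ^ P := by
    have h1 : (∏ i, (EnV h (a i) : ℝ)) * (N : ℝ) ^ d = ∏ i, ((EnV h (a i) : ℝ) * (X i : ℝ) ^ d) := by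
      rw [prod_mul_distrib, hN, Nat.cast_prod, ← prod_pow]
    have h2 : ∏ i : Fin (k + 1), (L * (Fintype.card (ι i) : ℝ) ^ (2 * h)) = L ^ K * I ^ P := by
      rw [prod_mul_distrib, prod_const, card_univ, Fintype.card_fin, hI, ← prod_pow, hK, hP]
    rw [h1, ← h2]
    exact prod_le_prod (fun i _ => by positivity) fun i _ => hE i
  have hlog : 1 + Real.log ((c0 * N : ℕ) : ℝ) ≤ (1 + Real.log c0) * (1 + Real.log N) := by
    push_cast
    rw [Real.log_mul (by positivity) (by positivity)]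
    nlinarith
  have hlog0 : 0 ≤ 1 + Real.log ((c0 * N : ℕ) : ℝ) := by
    push_cast
    rw [Real.log_mul (by positivity) (by positivity)]
    positivity
  have b4 : (Cn (Fin m × Fin d) R : ℝ) * N ≤ (3 ^ K * c0) ^ (m * d) * (N : ℝ) ^ (m * d) *
      (K1 * ((1 + Real.log c0) * (1 + Real.log N)) ^ lexp k) := by
    have h1 : (Cn (Fin m × Fin d) R : ℝ) * N ≤ (Cn (Fin m × Fin d) R : ℝ) * ((c0 * N : ℕ) : ℝ) := by
      apply mul_le_mul_of_nonneg_left _ (Nat.cast_nonneg _)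
      push_cast
      exact le_mul_of_one_le_left hN0.le hc0r
    refine h1.trans (hCn2.trans ?_)
    have h2 : (3 ^ K * ((c0 * N : ℕ) : ℝ)) ^ (m * d) = (3 ^ K * c0) ^ (m * d) * (N : ℝ) ^ (m * d) := by
      rw [← mul_pow]
      congr 1
      push_cast
      ring
    rw [h2]
    apply mul_le_mul_of_nonneg_left _ (by positivity)
    apply mul_le_mul_of_nonneg_left _ hK10.le
    exact pow_le_pow_left₀ hlog0 hlog _
  have b5 := pow_le_pow_left₀ (by positivity) b3 m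
  have hNmd : (0 : ℝ) < (N : ℝ) ^ (m * d) := by positivity
  refine le_of_mul_le_mul_right ?_ hNmd
  have hsplit : P ^ (k + 1) * m = (P ^ (k + 1) - P) * m + P * m := by
    rw [← add_mul]
    congr 1
    omega
  calc (EnZ (ord h s k) (val κ a f) : ℝ) * N * (N : ℝ) ^ (m * d)
      ≤ I ^ ((P ^ (k + 1) - P) * m) * ((∏ i, (EnV h (a i) : ℝ)) ^ m * Cn (Fin m × Fin d) R) * N * (N : ℝ) ^ (m * d) := by
        gcongr
    _ = I ^ ((P ^ (k + 1) - P) * m) * (((∏ i, (EnV h (a i) : ℝ)) * (N : ℝ) ^ d) ^ m * ((Cn (Fin m × Fin d) R : ℝ) * N)) := by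
        rw [mul_pow _ _ m, ← pow_mul, mul_comm d m]
        ring
    _ ≤ I ^ ((P ^ (k + 1) - P) * m) * ((L ^ K * I ^ P) ^ m * ((3 ^ K * c0) ^ (m * d) * (N : ℝ) ^ (m * d) *
      (K1 * ((1 + Real.log c0) * (1 + Real.log N)) ^ lexp k))) := by
        apply mul_le_mul_of_nonneg_left _ (by positivity)
        exact mul_le_mul b5 b4 (by positivity) (by positivity)
    _ = _ := by
        rw [hsplit, pow_add, mul_pow _ _ m, ← pow_mul, ← pow_mul, mul_pow _ _ (lexp k), hK]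
        ring

end Pool.Agent.W5h1.MLin
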