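import Pool.Agent.W5h1.MLin.C

set_option autoImplicit false

/-! Additive energies of multilinear families: the bounds in terms of powers of the logarithm and of small powers. -/

namespace Pool.Agent.W5h1.MLin
open Finset
open Pool.Agent.W5h80.Bil (EnV EnZ)

lemma ev_log (c : ℝ) : ∃ x0 : ℕ, ∀ x : ℕ, x0 ≤ x → c ≤ Real.log x := Pool.Agent.TH935.LD.ev_L' c

/-- thin families: powers of the logarithm -/
theorem energy_log (d h s B C k : ℕ) (hd : 1 ≤ d) (hh : 1 ≤ h) (κ : ℤ) (hκ : κ ≠ 0) :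
    ∃ N₀ : ℕ, ∀ X : Fin (k + 1) → ℕ, N₀ ≤ ∏ i, X i → (∀ i, ∏ j, X j ≤ X i ^ s) →
      ∀ (ι : Fin (k + 1) → Type) [∀ i, Fintype (ι i)] (a : ∀ i, ι i → Fin d → ℤ)
        (f : Fin (k + 1) → (∀ i, ι i) → ℤ), (∀ i x c, |a i x c| ≤ B * X i) → (∀ i, Free i (f i)) →
      (∀ i, (EnV h (a i) : ℝ) * (X i : ℝ) ^ d ≤ Real.log (∏ i, X i : ℕ) ^ C * (Fintype.card (ι i) : ℝ) ^ (2 * h)) →
      (EnZ (ord h s k) (val κ a f) : ℝ) * (∏ i, X i : ℕ) ≤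
        Real.log (∏ i, X i : ℕ) ^ (C * ((k + 1) * (k + 2 + s)) + (lexp k + 1)) *
          (Fintype.card (∀ i, ι i) : ℝ) ^ (2 * ord h s k) := by
  classical
  obtain ⟨c, hc, hb⟩ := energy_bound d h s (B + 1) k hd hh (by omega) κ hκ
  obtain ⟨n1, h1⟩ := ev_log (c * 2 ^ lexp k + 1)
  refine ⟨n1 + 1, ?_⟩
  intro X hN hXs ι _ a f ha hf hE
  obtain ⟨N, hNd⟩ : ∃ N : ℕ, N = ∏ i, X i := ⟨_, rfl⟩
  rw [← hNd] at hN hE ⊢
  have hX : ∀ i, 1 ≤ X i := by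
    intro i
    rcases Nat.eq_zero_or_pos (X i) with h0 | h0
    · have : N = 0 := by
        rw [hNd]
        exact prod_eq_zero (mem_univ i) h0
      omega
    · exact h0
  have hL := h1 N (by omega)
  obtain ⟨ℓ, hℓ⟩ : ∃ ℓ, ℓ = Real.log (N : ℝ) := ⟨_, rfl⟩
  rw [← hℓ] at hL hE ⊢
  have hcp : 0 < c * 2 ^ lexp k := by positivity
  have hℓ1 : 1 ≤ ℓ := by linarith
  have hℓ0 : 0 < ℓ := by linarith
  have key := hb X hX hXs ι a f (by
    intro i x c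
    have := ha i x c
    have h3 : (0 : ℤ) ≤ X i := by positivity
    push_cast
    linarith) hf (ℓ ^ C) (by positivity) hE
  rw [← hNd, ← hℓ] at key
  refine key.trans ?_
  apply mul_le_mul_of_nonneg_right _ (by positivity)
  have e1 : ℓ ^ (C * ((k + 1) * (k + 2 + s)) + (lexp k + 1)) = (ℓ ^ C) ^ ((k + 1) * (k + 2 + s)) * (ℓ * ℓ ^ lexp k) := by
    rw [pow_add, pow_mul, pow_succ ℓ (lexp k), mul_comm (ℓ ^ lexp k) ℓ]
  have e2 : c * (1 + ℓ) ^ lexp k ≤ ℓ * ℓ ^ lexp k := by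
    calc c * (1 + ℓ) ^ lexp k ≤ c * (2 * ℓ) ^ lexp k := by
          apply mul_le_mul_of_nonneg_left _ hc.le
          exact pow_le_pow_left₀ (by positivity) (by linarith) _
      _ = (c * 2 ^ lexp k) * ℓ ^ lexp k := by rw [mul_pow]; ring
      _ ≤ ℓ * ℓ ^ lexp k := mul_le_mul_of_nonneg_right (by linarith) (by positivity)
  rw [e1]
  calc c * (ℓ ^ C) ^ ((k + 1) * (k + 2 + s)) * (1 + ℓ) ^ lexp k =
      (ℓ ^ C) ^ ((k + 1) * (k + 2 + s)) * (c * (1 + ℓ) ^ lexp k) := by ring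
    _ ≤ _ := mul_le_mul_of_nonneg_left e2 (by positivity)

/-- thin families: small powers -/
theorem energy_pow (d h s B k : ℕ) (hd : 1 ≤ d) (hh : 1 ≤ h) (κ : ℤ) (hκ : κ ≠ 0) (η θ : ℝ)
    (hη : η * ((k + 1) * (k + 2 + s)) < θ) :
    ∃ N₀ : ℕ, ∀ X : Fin (k + 1) → ℕ, N₀ ≤ ∏ i, X i → (∀ i, ∏ j, X j ≤ X i ^ s) →
      ∀ (ι : Fin (k + 1) → Type) [∀ i, Fintype (ι i)] (a : ∀ i, ι i → Fin d → ℤ)
        (f : Fin (k + 1) → (∀ i, ι i) → ℤ), (∀ i x c, |a i x c| ≤ B * X i) → (∀ i, Free i (f i)) →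
      (∀ i, (EnV h (a i) : ℝ) * (X i : ℝ) ^ d ≤ ((∏ i, X i : ℕ) : ℝ) ^ η * (Fintype.card (ι i) : ℝ) ^ (2 * h)) →
      (EnZ (ord h s k) (val κ a f) : ℝ) * (∏ i, X i : ℕ) ≤
        ((∏ i, X i : ℕ) : ℝ) ^ θ * (Fintype.card (∀ i, ι i) : ℝ) ^ (2 * ord h s k) := by
  classical
  obtain ⟨c, hc, hb⟩ := energy_bound d h s (B + 1) k hd hh (by omega) κ hκ
  obtain ⟨μ, hμ⟩ : ∃ μ : ℝ, μ = θ - η * ((k + 1) * (k + 2 + s)) := ⟨_, rfl⟩
  have hμ0 : 0 < μ := by linarith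
  obtain ⟨n1, h1⟩ := ev_log (c * 2 ^ lexp k + 1)
  obtain ⟨n2, h2⟩ : ∃ n2 : ℕ, ∀ N : ℕ, n2 ≤ N → Real.log N ^ (lexp k + 1) ≤ (N : ℝ) ^ μ := by
    have h1 := (isLittleO_log_rpow_rpow_atTop (r := ((lexp k + 1 : ℕ) : ℝ)) (s := μ) hμ0).def (c := 1) (by norm_num)
    rw [Filter.eventually_atTop] at h1
    obtain ⟨x0, h0⟩ := h1
    refine ⟨⌈x0⌉₊ + 3, fun N hN => ?_⟩
    have hx : x0 ≤ N := (Nat.le_ceil x0).trans (by exact_mod_cast (by omega : ⌈x0⌉₊ ≤ N))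
    have hN3 : (3 : ℝ) ≤ N := by exact_mod_cast (by omega : 3 ≤ N)
    have h2 := h0 N hx
    have hlog : 0 < Real.log N := Real.log_pos (by linarith)
    rw [Real.rpow_natCast, Real.norm_of_nonneg (by positivity), Real.norm_of_nonneg (by positivity), one_mul] at h2
    exact h2
  refine ⟨n1 + n2 + 1, ?_⟩
  intro X hN hXs ι _ a f ha hf hE
  obtain ⟨N, hNd⟩ : ∃ N : ℕ, N = ∏ i, X i := ⟨_, rfl⟩
  rw [← hNd] at hN hE ⊢
  have hX : ∀ i, 1 ≤ X i := by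
    intro i
    rcases Nat.eq_zero_or_pos (X i) with h0 | h0
    · have : N = 0 := by
        rw [hNd]
        exact prod_eq_zero (mem_univ i) h0
      omega
    · exact h0
  have hN0 : (0 : ℝ) < N := by exact_mod_cast (by omega : 0 < N)
  have hL := h1 N (by omega)
  have hP := h2 N (by omega)
  obtain ⟨ℓ, hℓ⟩ : ∃ ℓ, ℓ = Real.log (N : ℝ) := ⟨_, rfl⟩
  rw [← hℓ] at hL hP
  have hcp : 0 < c * 2 ^ lexp k := by positivity
  have hℓ1 : 1 ≤ ℓ := by linarith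
  have hℓ0 : 0 < ℓ := by linarith
  have key := hb X hX hXs ι a f (by
    intro i x c
    have := ha i x c
    have h3 : (0 : ℤ) ≤ X i := by positivity
    push_cast
    linarith) hf ((N : ℝ) ^ η) (by positivity) hE
  rw [← hNd, ← hℓ] at key
  refine key.trans ?_
  apply mul_le_mul_of_nonneg_right _ (by positivity)
  have e2 : c * (1 + ℓ) ^ lexp k ≤ ℓ ^ (lexp k + 1) := by
    calc c * (1 + ℓ) ^ lexp k ≤ c * (2 * ℓ) ^ lexp k := by
          apply mul_le_mul_of_nonneg_left _ hc.le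
          exact pow_le_pow_left₀ (by positivity) (by linarith) _
      _ = (c * 2 ^ lexp k) * ℓ ^ lexp k := by rw [mul_pow]; ring
      _ ≤ ℓ * ℓ ^ lexp k := mul_le_mul_of_nonneg_right (by linarith) (by positivity)
      _ = _ := by rw [pow_succ]; ring
  have e3 : ((N : ℝ) ^ η) ^ ((k + 1) * (k + 2 + s)) = (N : ℝ) ^ (η * ((k + 1) * (k + 2 + s))) := by
    rw [← Real.rpow_natCast, ← Real.rpow_mul hN0.le]
    congr 1
    push_cast
    ring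
  calc c * ((N : ℝ) ^ η) ^ ((k + 1) * (k + 2 + s)) * (1 + ℓ) ^ lexp k =
      ((N : ℝ) ^ η) ^ ((k + 1) * (k + 2 + s)) * (c * (1 + ℓ) ^ lexp k) := by ring
    _ ≤ ((N : ℝ) ^ η) ^ ((k + 1) * (k + 2 + s)) * (N : ℝ) ^ μ :=
        mul_le_mul_of_nonneg_left (e2.trans hP) (by positivity)
    _ = _ := by
        rw [e3, ← Real.rpow_add hN0]
        congr 1
        rw [hμ]
        ring

end Pool.Agent.W5h1.MLin
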